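import Pool.Agent.R890.FF.Oc5
import Pool.Agent.X186.IC.Defs

set_option autoImplicit false
set_option linter.unusedSectionVars false
set_option linter.unusedVariables false

/-!
# Orientable five cycle double covers: classes of graphs closed under identifications
-/

namespace Pool.Agent.H789.OC

open Finset Pool.Agent.TH362.TF Pool.Agent.H160R2.HF Pool.Agent.H23.PS

section
variable {V E : Type} [Fintype V] [DecidableEq V] [Fintype E] [DecidableEq E]

/-- If every bridgeless graph obtained from `K` by identification of vertices has a nowhere-zero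
4-flow or a Petersen quotient, then `K` has five classes. -/
theorem five_of (K : OrGraph V E) (hb : K.Bridgeless)
    (h : ∀ π : V → V, N1 (fun e => π (K.t e)) (fun e => π (K.h e)) univ →
      NZ (fun e => π (K.t e)) (fun e => π (K.h e)) univ ∨
        PQ (fun e => π (K.t e)) (fun e => π (K.h e)) univ) : FiveClasses K := by
  rw [show K = (⟨K.t, K.h⟩ : OrGraph V E) from rfl, ← R890.FF.classes_iff]
  refine R890.FF.sgn_class R890.FF.hom3U R890.FF.petOc R890.FF.classes_of_nz
    (Cl := fun s t => ∃ π : V → V, s = (fun e => π (K.t e)) ∧ t = (fun e => π (K.h e))) ?_ ?_ _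
    K.t K.h rfl ⟨id, rfl, rfl⟩ (R890.FF.n1_of_bridgeless K hb)
  · rintro s t π ⟨ρ, rfl, rfl⟩
    exact ⟨fun v => π (ρ v), rfl, rfl⟩
  · rintro s t ⟨ρ, rfl, rfl⟩ h1
    exact h ρ h1

end

/-- the number of the edges between `X` and the other vertices -/
noncomputable def cutSize {V : Type} (G : SimpleGraph V) (X : Set V) : ℕ :=
  {p : V × V | p.1 ∈ X ∧ p.2 ∉ X ∧ G.Adj p.1 p.2}.ncard

theorem boundary_orient {V : Type} [Fintype V] (G : SimpleGraph V) (X : Set V) :
    Pool.Agent.X42.FewCuts.boundary (R890.FF.orient G).t (R890.FF.orient G).h X = cutSize G X := by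
  classical
  unfold Pool.Agent.X42.FewCuts.boundary cutSize
  have hK := R890.FF.orient_is G
  refine Set.ncard_congr (fun e _ => if (R890.FF.orient G).t e ∈ X then
    ((R890.FF.orient G).t e, (R890.FF.orient G).h e) else
    ((R890.FF.orient G).h e, (R890.FF.orient G).t e)) ?_ ?_ ?_
  · intro e he
    have he' : ¬ ((R890.FF.orient G).t e ∈ X ↔ (R890.FF.orient G).h e ∈ X) := he
    have hadj := hK.1 e
    show (if (R890.FF.orient G).t e ∈ X then
      ((R890.FF.orient G).t e, (R890.FF.orient G).h e) else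
      ((R890.FF.orient G).h e, (R890.FF.orient G).t e)) ∈ _
    by_cases h1 : (R890.FF.orient G).t e ∈ X
    · rw [if_pos h1]
      exact ⟨h1, fun h2 => he' ⟨fun _ => h2, fun _ => h1⟩, hadj⟩
    · rw [if_neg h1]
      refine ⟨?_, h1, hadj.symm⟩
      show (R890.FF.orient G).h e ∈ X
      by_contra h2
      exact he' ⟨fun h => absurd h h1, fun h => absurd h h2⟩
  · intro e e' he he' hee
    have hs : ∀ e : G.edgeSet, ∀ p : V × V, p = (if (R890.FF.orient G).t e ∈ X then
        ((R890.FF.orient G).t e, (R890.FF.orient G).h e) else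
        ((R890.FF.orient G).h e, (R890.FF.orient G).t e)) → s(p.1, p.2) = e.1 := by
      intro e p hp
      rw [← R890.FF.orient_eq G e, hp]
      split_ifs
      · rfl
      · exact Sym2.eq_swap
    apply Subtype.ext
    rw [← hs e _ rfl, ← hs e' _ rfl]
    rw [hee]
  · rintro ⟨u, v⟩ hp
    obtain ⟨h1, h2, h3⟩ := hp
    change u ∈ X at h1
    change v ∉ X at h2
    change G.Adj u v at h3
    obtain ⟨e, he, -⟩ := hK.2 u v h3
    refine ⟨e, ?_, ?_⟩
    · show ¬ ((R890.FF.orient G).t e ∈ X ↔ (R890.FF.orient G).h e ∈ X)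
      rcases he with ⟨a, b⟩ | ⟨a, b⟩
      · rw [a, b]; exact fun h => h2 (h.1 h1)
      · rw [a, b]; exact fun h => h2 (h.2 h1)
    · rcases he with ⟨a, b⟩ | ⟨a, b⟩
      · rw [a, b, if_pos h1]
      · rw [a, b, if_neg h2]

theorem joined_orient {V : Type} [Fintype V] (G : SimpleGraph V) (u v : V) :
    (∃ e, ((R890.FF.orient G).t e = u ∧ (R890.FF.orient G).h e = v) ∨
      ((R890.FF.orient G).t e = v ∧ (R890.FF.orient G).h e = u)) ↔ G.Adj u v := by
  classical
  have hK := R890.FF.orient_is G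
  constructor
  · rintro ⟨e, ⟨a, b⟩ | ⟨a, b⟩⟩
    · rw [← a, ← b]; exact hK.1 e
    · rw [← a, ← b]; exact (hK.1 e).symm
  · intro h
    obtain ⟨e, he, -⟩ := hK.2 u v h
    refine ⟨e, ?_⟩
    rcases he with ⟨a, b⟩ | ⟨a, b⟩
    · exact Or.inl ⟨a, b⟩
    · exact Or.inr ⟨b, a⟩

end Pool.Agent.H789.OC
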